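import Mathlib
import Pool.Agent.R231.SN.Herg

set_option autoImplicit false

open Filter Topology Set Metric MeasureTheory
open scoped ENNReal Pointwise

namespace Pool.Agent.Results.MP_ab521b_an.NullSubspaces

open Pool.Agent.R231.SN

/-- the real hyperplane `Re x₁ = 0` -/
noncomputable def HR (m : ℕ) : Submodule ℝ (E (m + 2)) :=
  LinearMap.ker (Complex.reLm.comp
    ((EuclideanSpace.proj (0 : Fin (m + 2)) : E (m + 2) →L[ℂ] ℂ).toLinearMap.restrictScalars ℝ))

/-- the complex hyperplane `x₁ = 0` -/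
noncomputable def HC (m : ℕ) : Submodule ℂ (E (m + 2)) :=
  LinearMap.ker (EuclideanSpace.proj (0 : Fin (m + 2)) : E (m + 2) →L[ℂ] ℂ).toLinearMap

lemma mem_HR {m : ℕ} {x : E (m + 2)} : x ∈ HR m ↔ (x 0).re = 0 := by
  simp [HR]

lemma mem_HC {m : ℕ} {x : E (m + 2)} : x ∈ HC m ↔ x 0 = 0 := by
  simp [HC]

lemma finrank_HR (m : ℕ) : Module.finrank ℝ (HR m) = 2 * (m + 2) - 1 := by
  set f : E (m + 2) →ₗ[ℝ] ℝ := Complex.reLm.comp
    ((EuclideanSpace.proj (0 : Fin (m + 2)) : E (m + 2) →L[ℂ] ℂ).toLinearMap.restrictScalars ℝ) with hf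
  have h1 := LinearMap.finrank_range_add_finrank_ker f
  have h2 : LinearMap.range f = ⊤ := by
    rw [LinearMap.range_eq_top]
    intro y
    refine ⟨EuclideanSpace.single 0 (y : ℂ), ?_⟩
    simp [hf]
  have h3 : Module.finrank ℝ (E (m + 2)) = 2 * (m + 2) := by
    rw [finrank_real_of_complex]; simp
  rw [h2, finrank_top, Module.finrank_self, h3] at h1
  have h4 : HR m = LinearMap.ker f := rfl
  rw [h4]
  omega

lemma finrank_HC (m : ℕ) : Module.finrank ℂ (HC m) = (m + 2) - 1 := by
  set f : E (m + 2) →ₗ[ℂ] ℂ :=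
    (EuclideanSpace.proj (0 : Fin (m + 2)) : E (m + 2) →L[ℂ] ℂ).toLinearMap with hf
  have h1 := LinearMap.finrank_range_add_finrank_ker f
  have h2 : LinearMap.range f = ⊤ := by
    rw [LinearMap.range_eq_top]
    intro y
    refine ⟨EuclideanSpace.single 0 y, ?_⟩
    simp [hf]
  have h3 : Module.finrank ℂ (E (m + 2)) = m + 2 := by simp
  rw [h2, finrank_top, Module.finrank_self, h3] at h1
  have h4 : HC m = LinearMap.ker f := rfl
  rw [h4]
  omega

/-- For `n ≥ 2` the largest complex dimension of a `P_H`-null complex subspace of `ℂⁿ` is `n - 1`,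
and the largest real dimension of a `P_H`-null real subspace is `2n - 1`. -/
theorem result (n : ℕ) (hn : 2 ≤ n) :
    IsGreatest {d : ℕ | ∃ W : Submodule ℂ (E n), Module.finrank ℂ W = d ∧ NullC W} (n - 1) ∧
    IsGreatest {d : ℕ | ∃ W : Submodule ℝ (E n), Module.finrank ℝ W = d ∧ NullR W} (2 * n - 1) ∧
    (PH n).Nonempty := by
  obtain ⟨m, rfl⟩ := Nat.exists_eq_add_of_le' hn
  have hreal : NullR (HR m) := by
    intro μ hμ
    have := hyper_null hμ.1
    refine measure_mono_null ?_ this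
    intro u hu
    exact mem_HR.1 hu
  have hcomp : NullC (HC m) := by
    intro μ hμ
    have := hyper_null hμ.1
    refine measure_mono_null ?_ this
    intro u hu
    have hu' : (u : E (m + 2)) 0 = 0 := mem_HC.1 hu
    show ((u : E (m + 2)) 0).re = 0
    rw [hu']; rfl
  refine ⟨⟨⟨HC m, finrank_HC m, hcomp⟩, ?_⟩, ⟨⟨HR m, finrank_HR m, hreal⟩, ?_⟩, ⟨_, sig_mem_PH⟩⟩
  · rintro d ⟨W, hW, hnull⟩
    by_contra hd
    push Not at hd
    have h1 : Module.finrank ℂ W ≤ Module.finrank ℂ (E (m + 2)) := Submodule.finrank_le W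
    have h2 : Module.finrank ℂ (E (m + 2)) = m + 2 := by simp
    have h3 : W = ⊤ := by
      apply Submodule.eq_top_of_finrank_eq
      omega
    have h4 := hnull _ sig_mem_PH
    rw [h3] at h4
    simp at h4
  · rintro d ⟨W, hW, hnull⟩
    by_contra hd
    push Not at hd
    have h1 : Module.finrank ℝ W ≤ Module.finrank ℝ (E (m + 2)) := Submodule.finrank_le W
    have h2 : Module.finrank ℝ (E (m + 2)) = 2 * (m + 2) := by
      rw [finrank_real_of_complex]; simp
    have h3 : W = ⊤ := by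
      apply Submodule.eq_top_of_finrank_eq
      omega
    have h4 := hnull _ sig_mem_PH
    rw [h3] at h4
    simp at h4

end Pool.Agent.Results.MP_ab521b_an.NullSubspaces
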